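import Pool.Agent.H43.CE.Defs

/-!
# CE, job K-Add : length additive products

`len (u * w) = len u + len w` implies `AD u w` (no pair `i < j` with `u j < u i` and `w⁻¹ j < w⁻¹ i`).
Proof.  Let `A = {(i, j) : i < j, u j < u i}` (`A.card = len u`), `B = {(i, j) : i < j, w⁻¹ j < w⁻¹ i}` (`B.card = len w⁻¹ = len w`, `CMT.len_inv`), and `V = {(a, b) : a < b, (u*w) b < (u*w) a}` (`V.card = len (u*w)`).
The map `V → (A \ B) ∪ (B \ A)`, `(a, b) ↦ (w a, w b)` if `w a < w b`, `(w b, w a)` otherwise, is a bijection: for `w a < w b` the pair `(w a, w b)` is in `A` and not in `B`; for `w b < w a` the pair `(i, j) = (w b, w a)` has `i < j`,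
`w⁻¹ j = a < b = w⁻¹ i` so it is in `B`, and `u i = (u*w) b < (u*w) a = u j`, so it is not in `A`; inverse map: `(i, j) ∈ A \ B ↦ (w⁻¹ i, w⁻¹ j)`, `(i, j) ∈ B \ A ↦ (w⁻¹ j, w⁻¹ i)`.
So `len (u*w) = (A \ B).card + (B \ A).card = A.card + B.card - 2 * (A ∩ B).card`, and the hypothesis gives `A ∩ B = ∅`.
-/

open MvPolynomial

noncomputable section

namespace CE

open CMT

variable {n : ℕ}

/-- the inversions of `v` -/
def Add_inv (v : Equiv.Perm (Fin n)) : Finset (Fin n × Fin n) :=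
  Finset.univ.filter fun p : Fin n × Fin n => p.1 < p.2 ∧ v p.2 < v p.1

theorem Add_mem {v : Equiv.Perm (Fin n)} {p : Fin n × Fin n} :
    p ∈ Add_inv v ↔ p.1 < p.2 ∧ v p.2 < v p.1 := by
  unfold Add_inv
  rw [Finset.mem_filter]
  exact ⟨fun h => h.2, fun h => ⟨Finset.mem_univ _, h⟩⟩

theorem Add_card (v : Equiv.Perm (Fin n)) : (Add_inv v).card = len v := rfl

/-- the ordered pair with the entries `w a`, `w b` -/
def Add_map (w : Equiv.Perm (Fin n)) (p : Fin n × Fin n) : Fin n × Fin n :=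
  if w p.1 < w p.2 then (w p.1, w p.2) else (w p.2, w p.1)

theorem Add_ia (w : Equiv.Perm (Fin n)) (a : Fin n) : w⁻¹ (w a) = a := w.symm_apply_apply a

theorem Add_maps (u w : Equiv.Perm (Fin n)) {p : Fin n × Fin n} (hp : p ∈ Add_inv (u * w)) :
    Add_map w p ∈ (Add_inv u \ Add_inv w⁻¹) ∪ (Add_inv w⁻¹ \ Add_inv u) := by
  rw [Add_mem] at hp
  obtain ⟨h1, h2⟩ := hp
  rw [Equiv.Perm.mul_apply, Equiv.Perm.mul_apply] at h2
  unfold Add_map
  by_cases h : w p.1 < w p.2
  · rw [if_pos h]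
    apply Finset.mem_union_left
    rw [Finset.mem_sdiff, Add_mem, Add_mem]
    refine ⟨⟨h, h2⟩, fun h3 => ?_⟩
    have h4 : w⁻¹ (w p.2) < w⁻¹ (w p.1) := h3.2
    rw [Add_ia, Add_ia] at h4
    exact absurd h4 (not_lt_of_gt h1)
  · rw [if_neg h]
    apply Finset.mem_union_right
    rw [Finset.mem_sdiff, Add_mem, Add_mem]
    have h5 : w p.2 < w p.1 := lt_of_le_of_ne (not_lt.1 h) (fun h6 => h1.ne' (w.injective h6))
    refine ⟨⟨h5, ?_⟩, fun h3 => ?_⟩
    · show w⁻¹ (w p.1) < w⁻¹ (w p.2)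
      rw [Add_ia, Add_ia]
      exact h1
    · exact absurd h3.2 (not_lt_of_gt h2)

theorem Add_injOn (u w : Equiv.Perm (Fin n)) :
    Set.InjOn (Add_map w) (Add_inv (u * w) : Set (Fin n × Fin n)) := by
  intro p hp r hr h
  have hp1 := (Add_mem.1 (Finset.mem_coe.1 hp)).1
  have hr1 := (Add_mem.1 (Finset.mem_coe.1 hr)).1
  unfold Add_map at h
  by_cases h1 : w p.1 < w p.2
  · by_cases h2 : w r.1 < w r.2
    · rw [if_pos h1, if_pos h2] at h
      exact Prod.ext (w.injective (congrArg Prod.fst h)) (w.injective (congrArg Prod.snd h))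
    · rw [if_pos h1, if_neg h2] at h
      have e1 : p.1 = r.2 := w.injective (congrArg Prod.fst h)
      have e2 : p.2 = r.1 := w.injective (congrArg Prod.snd h)
      rw [e1, e2] at hp1
      exact absurd hp1 (not_lt_of_gt hr1)
  · by_cases h2 : w r.1 < w r.2
    · rw [if_neg h1, if_pos h2] at h
      have e1 : p.2 = r.1 := w.injective (congrArg Prod.fst h)
      have e2 : p.1 = r.2 := w.injective (congrArg Prod.snd h)
      rw [e1, e2] at hp1
      exact absurd hp1 (not_lt_of_gt hr1)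
    · rw [if_neg h1, if_neg h2] at h
      exact Prod.ext (w.injective (congrArg Prod.snd h)) (w.injective (congrArg Prod.fst h))

theorem ad_of_len {u w : Equiv.Perm (Fin n)} (h : len (u * w) = len u + len w) : AD u w := by
  intro i j hij huj
  by_contra hcon
  have hne : w⁻¹ i ≠ w⁻¹ j := fun h1 => hij.ne (w⁻¹.injective h1)
  have hlt : w⁻¹ j < w⁻¹ i := lt_of_le_of_ne (not_lt.1 hcon) hne.symm
  have hmem : (i, j) ∈ Add_inv u ∩ Add_inv w⁻¹ := by
    rw [Finset.mem_inter, Add_mem, Add_mem]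
    exact ⟨⟨hij, huj⟩, hij, hlt⟩
  have hpos : 0 < (Add_inv u ∩ Add_inv w⁻¹).card := Finset.card_pos.2 ⟨_, hmem⟩
  have h1 : (Add_inv (u * w)).card ≤
      ((Add_inv u \ Add_inv w⁻¹) ∪ (Add_inv w⁻¹ \ Add_inv u)).card :=
    Finset.card_le_card_of_injOn (Add_map w) (fun p hp => Add_maps u w hp) (Add_injOn u w)
  have h2 := Finset.card_union_le (Add_inv u \ Add_inv w⁻¹) (Add_inv w⁻¹ \ Add_inv u)
  have h3 := Finset.card_sdiff_add_card_inter (Add_inv u) (Add_inv w⁻¹)
  have h4 := Finset.card_sdiff_add_card_inter (Add_inv w⁻¹) (Add_inv u)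
  rw [Finset.inter_comm (Add_inv w⁻¹)] at h4
  rw [Add_card] at h1 h3 h4
  rw [len_inv] at h4
  omega

end CE
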