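import Pool.Agent.H43.CE.Defs

/-!
# CE, job K-NoExc : no exceptional components

* `rank_inv_le` : induction on `j.val - i.val`: if there is `c` with `i < c < j`, `u j < u c < u i` then `h i + 1 ≤ h c`, `h c + 1 ≤ h j`; otherwise `h j = h i + 1` (`RankFun`).
* `noexc` : `u' = u * swap a b`, `Hasse u a b` (`a < b`, `u b < u a`, nothing between).  Let `i < j`, `u' j < u' i`, and suppose `y j < y i` (`y i ≠ y j`).  By `hdis` `(i, j)` is not an inversion of `u`: `u i < u j`.  So `{i,j}` meets `{a,b}`:
  - `i = a`: `u' a = u b < u a < u j`; if `j ≠ b` then `u' j = u j`, contradiction; if `j = b` then `u b < u a`, contradiction to `u i < u j`.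
  - `j = b`, `i ≠ a`: `u' i = u i > u' b = u a > u b`, contradiction to `u i < u j`.
  - `i = b`: `j > b`, `u' b = u a > u j > u b`.  `h b = h a + 1`.  `(a, j)` is an inversion of `u`: `h a + 1 ≤ h j` (`rank_inv_le`), so `h b ≤ h j`.  `(b, j)` is an inversion of `y`: `g b + 1 ≤ g j`.  So `h b + g b + 1 ≤ h j + g j`,
    contradiction to `hN` (`b ≤ j`).
  - `j = a`: `i < a`, `u' i = u i > u' a = u b`, `u i < u a`.  `(i, b)` is an inversion of `u`: `h i + 1 ≤ h b = h a + 1`, so `h i ≤ h a`.  `(i, a)` is an inversion of `y`: `g i + 1 ≤ g a`.  Contradiction to `hN` (`i ≤ a`).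
* `ne_of_rank` : `p = (u1, w)`, `cov u1 u`: `u1 = u * swap a b` (`CMT.hasse_of_cov`), `noexc` with `y = w⁻¹`: this is `AD u1 w`.
  `p = (u, w1)`, `cov w1 w`: `cov w1⁻¹ w⁻¹` (`CMT.cov_inv`), `w1⁻¹ = w⁻¹ * swap a b`; `noexc` with the roles `(w⁻¹, g)`, `(u, h)` exchanged (`hdis`: `i < j`, `w⁻¹ j < w⁻¹ i` imply `u i < u j`, by `AD` and injectivity): for `i < j`, `w1⁻¹ j < w1⁻¹ i`
  we get `u i < u j`; contrapositive: `AD u w1`.
-/

open MvPolynomial

noncomputable section

namespace CE

open CMT

variable {n : ℕ} {u w : Equiv.Perm (Fin n)} {h g : Fin n → ℤ}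

theorem rank_inv_le_aux (hu : RankFun u h) : ∀ (d : ℕ) {i j : Fin n}, j.val - i.val ≤ d → i < j →
    u j < u i → h i + 1 ≤ h j := by
  intro d
  induction d with
  | zero =>
    intro i j hd hij _
    rw [Fin.lt_def] at hij
    omega
  | succ d ih =>
    intro i j hd hij hji
    by_cases hc : ∃ c, i < c ∧ c < j ∧ u j < u c ∧ u c < u i
    · obtain ⟨c, hic, hcj, h1, h2⟩ := hc
      have e1 := ih (i := i) (j := c) (by rw [Fin.lt_def] at hic hcj; omega) hic h2
      have e2 := ih (i := c) (j := j) (by rw [Fin.lt_def] at hic hcj; omega) hcj h1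
      linarith
    · have e := hu i j hij hji (fun c h1 h2 h3 => hc ⟨c, h1, h2, h3.1, h3.2⟩)
      exact e.ge

theorem rank_inv_le (hu : RankFun u h) {i j : Fin n} (hij : i < j) (hji : u j < u i) :
    h i + 1 ≤ h j :=
  rank_inv_le_aux hu _ le_rfl hij hji

theorem noexc {y : Equiv.Perm (Fin n)} (hu : RankFun u h) (hy : RankFun y g)
    (hdis : ∀ i j, i < j → u j < u i → y i < y j)
    (hN : ∀ i j, i ≤ j → h j + g j ≤ h i + g i) {a b : Fin n} (hH : Hasse u a b) :
    ∀ i j, i < j → (u * Equiv.swap a b) j < (u * Equiv.swap a b) i → y i < y j := by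
  intro i j hij hinv
  by_contra hcon
  have hyij : y j < y i := lt_of_le_of_ne (not_lt.mp hcon) (fun h0 => hij.ne' (y.injective h0))
  have huij : u i < u j := by
    rcases lt_trichotomy (u i) (u j) with h0 | h0 | h0
    · exact h0
    · exact absurd (u.injective h0) hij.ne
    · exact absurd (hdis i j hij h0) hcon
  obtain ⟨hab, hba, hc⟩ := hH
  have hhab : h b = h a + 1 := hu a b hab hba hc
  rw [Equiv.Perm.mul_apply, Equiv.Perm.mul_apply] at hinv
  have hyg := rank_inv_le hy hij hyij
  by_cases hia : i = a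
  · subst hia
    rw [Equiv.swap_apply_left] at hinv
    by_cases hjb : j = b
    · subst hjb
      exact absurd huij (not_lt.mpr hba.le)
    · rw [Equiv.swap_apply_of_ne_of_ne hij.ne' hjb] at hinv
      exact absurd (hinv.trans (hba.trans huij)) (lt_irrefl _)
  · by_cases hib : i = b
    · subst hib
      have haj : a < j := hab.trans hij
      rw [Equiv.swap_apply_right, Equiv.swap_apply_of_ne_of_ne haj.ne' hij.ne'] at hinv
      have e1 := rank_inv_le hu haj hinv
      have e2 := hN i j hij.le
      linarith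
    · rw [Equiv.swap_apply_of_ne_of_ne hia hib] at hinv
      by_cases hja : j = a
      · subst hja
        rw [Equiv.swap_apply_left] at hinv
        have e1 := rank_inv_le hu (hij.trans hab) hinv
        have e2 := hN i j hij.le
        linarith
      · by_cases hjb : j = b
        · subst hjb
          rw [Equiv.swap_apply_right] at hinv
          exact absurd (hinv.trans (huij.trans hba)) (lt_irrefl _)
        · rw [Equiv.swap_apply_of_ne_of_ne hja hjb] at hinv
          exact absurd (hinv.trans huij) (lt_irrefl _)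

theorem ne_of_rank (had : AD u w) (hu : RankFun u h) (hw : RankFun w⁻¹ g)
    (hN : ∀ i j, i ≤ j → h j + g j ≤ h i + g i) : NE u w := by
  refine ⟨had, ?_⟩
  rintro ⟨u1, w1⟩ (⟨hcov, h2⟩ | ⟨h1, hcov⟩)
  · simp only at hcov h2
    subst h2
    obtain ⟨a, b, hH, rfl⟩ := hasse_of_cov hcov
    exact noexc hu hw had hN hH
  · simp only at hcov h1
    subst h1
    obtain ⟨a, b, hH, he⟩ := hasse_of_cov (cov_inv hcov)
    have key := noexc (y := u1) hw hu (fun i j hij hlt => by
      rcases lt_trichotomy (u1 i) (u1 j) with h0 | h0 | h0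
      · exact h0
      · exact absurd (u1.injective h0) hij.ne
      · exact absurd (hlt.trans (had i j hij h0)) (lt_irrefl _))
      (fun i j hij => by have := hN i j hij; linarith) hH
    rw [← he] at key
    intro i j hij hlt
    simp only
    rcases lt_trichotomy (w1⁻¹ i) (w1⁻¹ j) with h0 | h0 | h0
    · exact h0
    · exact absurd (w1⁻¹.injective h0) hij.ne
    · exact absurd (hlt.trans (key i j hij h0)) (lt_irrefl _)

end CE
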