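import Pool.Agent.H43.CE.S.Cov
import Pool.Agent.H43.CE.Z.Comb
import Pool.Agent.H43.CE.K.NoExc

/-!
# CE, job K-HH : the function `H` on positions

`N i = h i + g i`, `H p = - g (w p)`.
* `sum_nuF` : `N i - N j = ∑_{k ∈ IN N, i ≤ k < j} nuF N k` for `i ≤ j`: telescoping (`nuF N k = N k - N (k+1)` since `N` is antitone; `k + 1 < n` for `k < j`); the terms outside `IN N` are 0.
* `hH_of_rank` : `i = w a`, `j = w b`, `hasse_split`.
  Case `i < j`, `Hasse u i j`: `h j = h i + 1`, `H b - H a = g i - g j = (N i - N j) + 1`; by `sum_nuF` it remains: for `c ∈ IN N`: `i ≤ c ∧ c < j ↔ (u*w) a = u c ∧ c ≤ (u*w) b`, where `(u*w) a = u i`, `(u*w) b = u j`, `u j < u i`.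
    `→`: if `i < c` then `u i < c` (`Pres`) and `c ≤ u j` (`pres_le`), contradiction; so `i = c`, and `c ≤ u j` by `pres_le`.  `←`: `i = c` by injectivity, `i < j`.
  Case `j < i`, `Hasse w a b`: `g i = g j + 1` by `RankFun w⁻¹ g` at `(j, i)`: `w⁻¹ i = a < b = w⁻¹ j`; a `c` with `j < c < i`, `a < w⁻¹ c < b` contradicts `Hasse w a b`.  So `H b - H a = 1`.  All terms of the sum vanish: `u i = u c` gives `i = c`, `j < c`,
    `u j < c` (`Pres`).
-/

open MvPolynomial

noncomputable section

namespace CE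

open CMT

variable {n : ℕ} {u w : Equiv.Perm (Fin n)} {h g : Fin n → ℤ}

theorem HH_nuF {N : Fin n → ℤ} (hN : ∀ i j, i ≤ j → N j ≤ N i) (k : Fin n) (hk : k.val + 1 < n) :
    (nuF N k : ℤ) = N k - N ⟨k.val + 1, hk⟩ := by
  unfold nuF
  rw [dif_pos hk]
  have h1 := hN k ⟨k.val + 1, hk⟩ (Fin.le_def.2 (Nat.le_succ _))
  exact Int.toNat_of_nonneg (by omega)

theorem HH_tele {N : Fin n → ℤ} (hN : ∀ i j, i ≤ j → N j ≤ N i) (i : Fin n) :
    ∀ (m : ℕ) (hm : i.val + m < n), N i - N ⟨i.val + m, hm⟩ =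
      ∑ k : Fin n, if i ≤ k ∧ k < ⟨i.val + m, hm⟩ then (nuF N k : ℤ) else 0 := by
  intro m
  induction m with
  | zero =>
    intro hm
    rw [Finset.sum_eq_zero]
    · exact sub_self _
    · intro k _
      rw [if_neg]
      rintro ⟨h1, h2⟩
      rw [Fin.le_def] at h1
      rw [Fin.lt_def] at h2
      simp only at h2
      omega
  | succ m ih =>
    intro hm
    have hm' : i.val + m < n := by omega
    have h1 : ∀ k : Fin n, (if i ≤ k ∧ k < ⟨i.val + (m + 1), hm⟩ then (nuF N k : ℤ) else 0) =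
        (if i ≤ k ∧ k < ⟨i.val + m, hm'⟩ then (nuF N k : ℤ) else 0) +
          (if k = ⟨i.val + m, hm'⟩ then (nuF N k : ℤ) else 0) := by
      intro k
      by_cases h2 : k = ⟨i.val + m, hm'⟩
      · subst h2
        rw [if_pos rfl, if_pos, if_neg, zero_add]
        · rintro ⟨-, h3⟩
          exact lt_irrefl _ h3
        · constructor
          · rw [Fin.le_def]
            simp
          · rw [Fin.lt_def]
            simp only
            omega
      · rw [if_neg h2, add_zero]
        by_cases h3 : i ≤ k ∧ k < ⟨i.val + m, hm'⟩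
        · rw [if_pos h3, if_pos]
          refine ⟨h3.1, ?_⟩
          have h4 := h3.2
          rw [Fin.lt_def] at h4 ⊢
          simp only at h4 ⊢
          omega
        · rw [if_neg h3, if_neg]
          rintro ⟨h4, h5⟩
          apply h3
          refine ⟨h4, ?_⟩
          have h6 : k.val ≠ i.val + m := fun h => h2 (Fin.ext h)
          rw [Fin.lt_def] at h5 ⊢
          simp only at h5 ⊢
          omega
    rw [Finset.sum_congr rfl fun k _ => h1 k, Finset.sum_add_distrib, ← ih hm',
      Finset.sum_ite_eq', if_pos (Finset.mem_univ _), HH_nuF hN _ (by simp only; omega)]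
    have h2 : (⟨i.val + (m + 1), hm⟩ : Fin n) = ⟨i.val + m + 1, by omega⟩ := rfl
    rw [h2]
    ring

theorem sum_nuF {N : Fin n → ℤ} (hN : ∀ i j, i ≤ j → N j ≤ N i) {i j : Fin n} (hij : i ≤ j) :
    N i - N j = ∑ k ∈ IN N, if i ≤ k ∧ k < j then (nuF N k : ℤ) else 0 := by
  have h1 : ∑ k ∈ IN N, (if i ≤ k ∧ k < j then (nuF N k : ℤ) else 0) =
      ∑ k, if i ≤ k ∧ k < j then (nuF N k : ℤ) else 0 := by
    apply Finset.sum_subset (Finset.subset_univ _)
    intro k _ hk
    have h2 : nuF N k = 0 := by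
      by_contra h3
      exact hk (Finset.mem_filter.2 ⟨Finset.mem_univ _, Nat.pos_of_ne_zero h3⟩)
    rw [h2]
    simp
  rw [h1]
  have h3 : j = ⟨i.val + (j.val - i.val), by
      have := Fin.le_def.1 hij
      have := j.isLt
      omega⟩ := by
    apply Fin.ext
    have := Fin.le_def.1 hij
    simp only
    omega
  have h4 := HH_tele hN i (j.val - i.val) (by
    have := Fin.le_def.1 hij
    have := j.isLt
    omega)
  rw [← h3] at h4
  exact h4

theorem hH_of_rank (had : AD u w) (hu : RankFun u h) (hw : RankFun w⁻¹ g)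
    (hN : ∀ i j, i ≤ j → h j + g j ≤ h i + g i) (hp : Pres (IN fun i => h i + g i) u)
    (a b : Fin n) (hH : Hasse (u * w) a b) :
    (fun p => - g (w p)) b - (fun p => - g (w p)) a =
      1 + ∑ c ∈ IN (fun i => h i + g i),
        if (u * w) a = u c ∧ c ≤ (u * w) b then (nuF (fun i => h i + g i) c : ℤ) else 0 := by
  show -g (w b) - -g (w a) = _
  have hlt : u (w b) < u (w a) := hH.2.1
  rcases hasse_split had hH with ⟨h1, h2⟩ | ⟨h1, h2⟩
  · have h3 : h (w b) = h (w a) + 1 := hu _ _ h2.1 h2.2.1 h2.2.2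
    have h4 := sum_nuF (N := fun i => h i + g i) hN h1.le
    have h5 : ∀ c ∈ IN (fun i => h i + g i),
        (if (u * w) a = u c ∧ c ≤ (u * w) b then (nuF (fun i => h i + g i) c : ℤ) else 0) =
        if w a ≤ c ∧ c < w b then (nuF (fun i => h i + g i) c : ℤ) else 0 := by
      intro c hc
      have h6 : ((u * w) a = u c ∧ c ≤ (u * w) b) ↔ (w a ≤ c ∧ c < w b) := by
        constructor
        · rintro ⟨h7, -⟩
          have h8 : w a = c := u.injective h7
          rw [← h8]
          exact ⟨le_rfl, h1⟩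
        · rintro ⟨h7, h8⟩
          have h9 : c ≤ u (w b) := pres_le hp hc h8.le
          rcases lt_or_eq_of_le h7 with h10 | h10
          · exact absurd ((hp c hc _ h10).trans_le h9) (not_lt.2 hlt.le)
          · rw [← h10]
            rw [← h10] at h9
            exact ⟨rfl, h9⟩
      by_cases h7 : w a ≤ c ∧ c < w b
      · rw [if_pos h7, if_pos (h6.2 h7)]
      · rw [if_neg h7, if_neg fun h8 => h7 (h6.1 h8)]
    rw [Finset.sum_congr rfl h5, ← h4, h3]
    ring
  · have h3 : g (w a) = g (w b) + 1 := by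
      apply hw _ _ h1
      · rw [comb_ii, comb_ii]
        exact h2.1
      · intro c hc1 hc2
        rw [comb_ii, comb_ii]
        rintro ⟨h4, h5⟩
        apply h2.2.2 _ h4 h5
        rw [comb_ai]
        exact ⟨hc1, hc2⟩
    rw [Finset.sum_eq_zero, h3]
    · ring
    · intro c hc
      rw [if_neg]
      rintro ⟨h4, h5⟩
      have h6 : w a = c := u.injective h4
      have h7 := hp c hc (w b) (by rw [← h6]; exact h1)
      exact absurd h7 (not_lt.2 h5)

end CE
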