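import Pool.Agent.H43.CE.Defs

/-!
# CE, job K-Norm : normalization of the rank functions

`δ k = N k - N (k+1)` (`k + 1 < n`, `N = h + g`).  `h' p = h p + ∑_{k < p, ¬ EX u k} δ k`, `g' p = g p + ∑_{k < p, EX u k, ¬ EX y k} δ k`.
* `EX_of_inv` : `a < b`, `u b < u a`, `a ≤ k < b` ⟹ `EX u k`: if `k < u a` take `j = a`.  Otherwise `u b < u a ≤ k`, so `u` maps `b > k` into `{0..k}`, so not all of `{0..k}` is mapped into itself: some `j ≤ k` has `k < u j`.
* `RankFun u h'` : for a Hasse pair `(a, b)`: `h' b - h' a = h b - h a + ∑_{a ≤ k < b, ¬ EX u k} δ k = h b - h a`.  `RankFun y g'`: `∑_{a ≤ k < b, EX u k, ¬ EX y k} = 0` in the same way.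
* `h'(k+1) + g'(k+1) - h'(k) - g'(k) = - δ k + [¬ EX u k] δ k + [EX u k, ¬ EX y k] δ k = - [EX u k, EX y k] δ k ≤ 0`; so `nuF (h'+g') k = nuF (h+g) k` if both hold and `0` otherwise (`k + 1 = n`: both `nuF` are 0).
-/

open MvPolynomial

noncomputable section

namespace CE

open CMT

variable {n : ℕ} {u y : Equiv.Perm (Fin n)} {h g : Fin n → ℤ}

theorem EX_of_inv {a b k : Fin n} (hab : a < b) (hu : u b < u a) (h1 : a ≤ k) (h2 : k < b) :
    EX u k := by
  by_contra hcon
  have hle : ∀ j, j ≤ k → u j ≤ k := by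
    intro j hj
    by_contra h
    exact hcon ⟨j, hj, not_le.1 h⟩
  have himg : (Finset.Iic k).image u = Finset.Iic k := by
    apply Finset.eq_of_subset_of_card_le
    · intro j hj
      obtain ⟨i, hi, rfl⟩ := Finset.mem_image.1 hj
      rw [Finset.mem_Iic] at hi ⊢
      exact hle i hi
    · rw [Finset.card_image_of_injective _ u.injective]
  have hb : u b ∈ (Finset.Iic k).image u := by
    rw [himg, Finset.mem_Iic]
    exact hu.le.trans (hle a h1)
  obtain ⟨i, hi, hib⟩ := Finset.mem_image.1 hb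
  rw [Finset.mem_Iic] at hi
  have hib' : i = b := u.injective hib
  rw [hib'] at hi
  exact absurd h2 (not_lt.2 hi)

open Classical in
/-- partial sums -/
def normA (δ : Fin n → ℤ) (P : Fin n → Prop) (p : Fin n) : ℤ :=
  ∑ k ∈ Finset.univ.filter (fun k : Fin n => k < p ∧ P k), δ k

theorem normA_eq (δ : Fin n → ℤ) (P : Fin n → Prop) {a b : Fin n} (hab : a ≤ b)
    (hP : ∀ k, a ≤ k → k < b → ¬ P k) : normA δ P b = normA δ P a := by
  classical
  unfold normA
  refine Finset.sum_congr ?_ fun _ _ => rfl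
  ext k
  simp only [Finset.mem_filter, Finset.mem_univ, true_and]
  constructor
  · rintro ⟨h1, h2⟩
    refine ⟨?_, h2⟩
    by_contra h3
    exact hP k (not_lt.1 h3) h1 h2
  · rintro ⟨h1, h2⟩
    exact ⟨h1.trans_le hab, h2⟩

open Classical in
theorem normA_succ (δ : Fin n → ℤ) (P : Fin n → Prop) (k : Fin n) (hk : k.val + 1 < n) :
    normA δ P ⟨k.val + 1, hk⟩ = normA δ P k + if P k then δ k else 0 := by
  unfold normA
  by_cases h : P k
  · rw [if_pos h]
    have h1 : Finset.univ.filter (fun j : Fin n => j < ⟨k.val + 1, hk⟩ ∧ P j) =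
        insert k (Finset.univ.filter (fun j : Fin n => j < k ∧ P j)) := by
      ext j
      simp only [Finset.mem_filter, Finset.mem_univ, true_and, Finset.mem_insert]
      constructor
      · rintro ⟨h1, h2⟩
        have h3 : j.val < k.val + 1 := h1
        rcases lt_or_eq_of_le (Nat.lt_succ_iff.1 h3) with h4 | h4
        · exact Or.inr ⟨h4, h2⟩
        · exact Or.inl (Fin.ext h4)
      · rintro (rfl | ⟨h1, h2⟩)
        · exact ⟨Nat.lt_succ_self _, h⟩
        · exact ⟨Nat.lt_succ_of_lt h1, h2⟩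
    rw [h1, Finset.sum_insert, add_comm]
    intro h2
    exact absurd (Finset.mem_filter.1 h2).2.1 (lt_irrefl k)
  · rw [if_neg h, add_zero]
    refine Finset.sum_congr ?_ fun _ _ => rfl
    ext j
    simp only [Finset.mem_filter, Finset.mem_univ, true_and]
    constructor
    · rintro ⟨h1, h2⟩
      have h3 : j.val < k.val + 1 := h1
      rcases lt_or_eq_of_le (Nat.lt_succ_iff.1 h3) with h4 | h4
      · exact ⟨h4, h2⟩
      · exact absurd h2 (by rw [Fin.ext h4]; exact h)
    · rintro ⟨h1, h2⟩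
      exact ⟨Nat.lt_succ_of_lt h1, h2⟩

theorem normA_anti (N : Fin n → ℤ)
    (h : ∀ (k : Fin n) (hk : k.val + 1 < n), N ⟨k.val + 1, hk⟩ ≤ N k) :
    ∀ i j, i ≤ j → N j ≤ N i := by
  have key : ∀ (m : ℕ) (i j : Fin n), j.val = i.val + m → N j ≤ N i := by
    intro m
    induction m with
    | zero =>
      intro i j hij
      have h1 : j = i := Fin.ext hij
      rw [h1]
    | succ m ih =>
      intro i j hij
      have h1 : i.val + m + 1 < n := by
        have := j.isLt
        omega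
      have h2 : i.val + m < n := by omega
      have h3 := ih i ⟨i.val + m, h2⟩ rfl
      have h4 := h ⟨i.val + m, h2⟩ h1
      have h5 : j = ⟨i.val + m + 1, h1⟩ := Fin.ext hij
      rw [h5]
      exact h4.trans h3
  intro i j hij
  refine key (j.val - i.val) i j ?_
  have h1 : i.val ≤ j.val := hij
  omega

theorem exists_norm (hu : RankFun u h) (hy : RankFun y g)
    (hJ : ∀ (k : Fin n) (hk : k.val + 1 < n), EX u k → EX y k →
      h ⟨k.val + 1, hk⟩ + g ⟨k.val + 1, hk⟩ ≤ h k + g k) :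
    ∃ h' g' : Fin n → ℤ, RankFun u h' ∧ RankFun y g' ∧
      (∀ i j, i ≤ j → h' j + g' j ≤ h' i + g' i) ∧
      (∀ k, EX u k → EX y k → nuF (fun i => h' i + g' i) k = nuF (fun i => h i + g i) k) ∧
      (∀ k, ¬ (EX u k ∧ EX y k) → nuF (fun i => h' i + g' i) k = 0) := by
  classical
  obtain ⟨δ, hδ⟩ : ∃ δ : Fin n → ℤ, ∀ (k : Fin n) (hk : k.val + 1 < n),
      δ k = h k + g k - (h ⟨k.val + 1, hk⟩ + g ⟨k.val + 1, hk⟩) := by
    refine ⟨fun k => if hk : k.val + 1 < n then
      h k + g k - (h ⟨k.val + 1, hk⟩ + g ⟨k.val + 1, hk⟩) else 0, fun k hk => ?_⟩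
    exact dif_pos hk
  let h' : Fin n → ℤ := fun p => h p + normA δ (fun k => ¬ EX u k) p
  let g' : Fin n → ℤ := fun p => g p + normA δ (fun k => EX u k ∧ ¬ EX y k) p
  have hstep : ∀ (k : Fin n) (hk : k.val + 1 < n),
      h' ⟨k.val + 1, hk⟩ + g' ⟨k.val + 1, hk⟩ = h' k + g' k -
        (if EX u k ∧ EX y k then δ k else 0) := by
    intro k hk
    show h ⟨k.val + 1, hk⟩ + normA δ (fun k => ¬ EX u k) ⟨k.val + 1, hk⟩ +
      (g ⟨k.val + 1, hk⟩ + normA δ (fun k => EX u k ∧ ¬ EX y k) ⟨k.val + 1, hk⟩) =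
      h k + normA δ (fun k => ¬ EX u k) k + (g k + normA δ (fun k => EX u k ∧ ¬ EX y k) k) -
        (if EX u k ∧ EX y k then δ k else 0)
    rw [normA_succ, normA_succ]
    have h1 := hδ k hk
    by_cases h2 : EX u k
    · by_cases h3 : EX y k
      · rw [if_neg (fun h => h h2), if_neg (fun h => h.2 h3), if_pos ⟨h2, h3⟩, h1]
        ring
      · rw [if_neg (fun h => h h2), if_pos ⟨h2, h3⟩, if_neg (fun h => h3 h.2), h1]
        ring
    · rw [if_pos h2, if_neg (fun h => h2 h.1), if_neg (fun h => h2 h.1), h1]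
      ring
  refine ⟨h', g', ?_, ?_, ?_, ?_, ?_⟩
  · intro a b hab hba hc
    show h b + normA δ (fun k => ¬ EX u k) b = h a + normA δ (fun k => ¬ EX u k) a + 1
    rw [hu a b hab hba hc, normA_eq δ (fun k => ¬ EX u k) hab.le
      (fun k h1 h2 h3 => h3 (EX_of_inv hab hba h1 h2))]
    ring
  · intro a b hab hba hc
    show g b + normA δ (fun k => EX u k ∧ ¬ EX y k) b =
      g a + normA δ (fun k => EX u k ∧ ¬ EX y k) a + 1
    rw [hy a b hab hba hc, normA_eq δ (fun k => EX u k ∧ ¬ EX y k) hab.le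
      (fun k h1 h2 h3 => h3.2 (EX_of_inv hab hba h1 h2))]
    ring
  · refine normA_anti (fun p => h' p + g' p) fun k hk => ?_
    show h' ⟨k.val + 1, hk⟩ + g' ⟨k.val + 1, hk⟩ ≤ h' k + g' k
    rw [hstep k hk]
    by_cases h2 : EX u k ∧ EX y k
    · rw [if_pos h2, hδ k hk]
      have h3 := hJ k hk h2.1 h2.2
      linarith
    · rw [if_neg h2, sub_zero]
  · intro k h1 h2
    unfold nuF
    by_cases hk : k.val + 1 < n
    · rw [dif_pos hk, dif_pos hk]
      show (h' k + g' k - (h' ⟨k.val + 1, hk⟩ + g' ⟨k.val + 1, hk⟩)).toNat =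
        (h k + g k - (h ⟨k.val + 1, hk⟩ + g ⟨k.val + 1, hk⟩)).toNat
      rw [hstep k hk, if_pos ⟨h1, h2⟩, hδ k hk]
      congr 1
      ring
    · rw [dif_neg hk, dif_neg hk]
  · intro k h1
    unfold nuF
    by_cases hk : k.val + 1 < n
    · rw [dif_pos hk]
      show (h' k + g' k - (h' ⟨k.val + 1, hk⟩ + g' ⟨k.val + 1, hk⟩)).toNat = 0
      rw [hstep k hk, if_neg h1, sub_zero, sub_self]
      rfl
    · rw [dif_neg hk]

end CE
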