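import Pool.Agent.H43.CE.K.NoExc
import Pool.Agent.H43.CE.K.HH
import Pool.Agent.H43.CE.K.Norm

/-!
# CE, job K-Setup : from the hypotheses of the theorem to `Setup` (assembly)

`h', g'` from `exists_norm` (`y = w⁻¹`), `N' = h' + g'`, `I = IN N'`, `ν = nuF N'`, `H p = - g' (w p)`.
* for `c ∈ I`: `nuF N' c > 0`, so `EX u c ∧ EX w⁻¹ c` and `nuF N c = nuF N' c > 0`, so `c.val + 1 < n` and `N (c+1) < N c`; `hJ2`: `∀ j < c, u j < c`.  So `Pres I u`.
* `up`: `EX u c`: `j ≤ c`, `c < u j`; `j < c` is impossible by `Pres`, so `j = c`.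
* `ne` : `ne_of_rank`.  `hH` : `hH_of_rank`.
* product: `I ⊆ Jset u w`, and for `k ∈ Jset u w`, `k ∉ I`: `nuF N k = nuF N' k = 0`, the factor is `(0 + d).choose d = 1`.  `Finset.prod_subset`.
-/

open MvPolynomial

noncomputable section

namespace CE

open CMT

variable {n : ℕ} {u w : Equiv.Perm (Fin n)} {h g : Fin n → ℤ}

theorem Setup_nuF_pos {N : Fin n → ℤ} {c : Fin n} (hc : 0 < nuF N c) :
    ∃ hk : c.val + 1 < n, N ⟨c.val + 1, hk⟩ < N c := by
  unfold nuF at hc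
  split_ifs at hc with hk
  · exact ⟨hk, by omega⟩
  · exact absurd hc (lt_irrefl _)

theorem Setup_mem (k : Fin n) : k ∈ Jset u w ↔ EX u k ∧ EX w⁻¹ k := by
  classical
  unfold Jset
  constructor
  · intro hk
    exact (@Finset.mem_filter _ _ (Classical.decPred _) _ _).1 hk |>.2
  · intro hk
    exact (@Finset.mem_filter _ _ (Classical.decPred _) _ _).2 ⟨Finset.mem_univ _, hk⟩

theorem exists_setup (had : AD u w) (hu : RankFun u h) (hw : RankFun w⁻¹ g)
    (hJ1 : ∀ (k : Fin n) (hk : k.val + 1 < n), EX u k → EX w⁻¹ k →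
      h ⟨k.val + 1, hk⟩ + g ⟨k.val + 1, hk⟩ ≤ h k + g k)
    (hJ2 : ∀ (k : Fin n) (hk : k.val + 1 < n), EX u k → EX w⁻¹ k →
      h ⟨k.val + 1, hk⟩ + g ⟨k.val + 1, hk⟩ < h k + g k → ∀ j, j < k → u j < k) :
    ∃ (I : Finset (Fin n)) (ν : Fin n → ℕ) (H : Fin n → ℤ), Setup u w I ν H ∧
      ∏ c ∈ I, (ν c + dF u w c).choose (dF u w c) =
        ∏ k ∈ Jset u w, (nuF (fun i => h i + g i) k + dF u w k).choose (dF u w k) := by
  obtain ⟨h', g', hu', hw', hN', hnu, hnu0⟩ := exists_norm hu hw hJ1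
  have key : ∀ c ∈ IN (fun i => h' i + g' i), (EX u c ∧ EX w⁻¹ c) ∧ ∀ j, j < c → u j < c := by
    intro c hc
    have hc0 : 0 < nuF (fun i => h' i + g' i) c := (Finset.mem_filter.1 hc).2
    have hEX : EX u c ∧ EX w⁻¹ c := by
      by_contra hne
      rw [hnu0 c hne] at hc0
      exact lt_irrefl _ hc0
    refine ⟨hEX, ?_⟩
    rw [hnu c hEX.1 hEX.2] at hc0
    obtain ⟨hk, hlt⟩ := Setup_nuF_pos hc0
    exact hJ2 c hk hEX.1 hEX.2 hlt
  have hpres : Pres (IN fun i => h' i + g' i) u := fun c hc => (key c hc).2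
  refine ⟨IN fun i => h' i + g' i, nuF fun i => h' i + g' i, fun p => - g' (w p), ⟨?_, hpres, ?_,
    ?_⟩, ?_⟩
  · exact ne_of_rank had hu' hw' hN'
  · intro c hc
    obtain ⟨⟨⟨j, hj1, hj2⟩, -⟩, hp⟩ := key c hc
    rcases lt_or_eq_of_le hj1 with hlt | heq
    · exact absurd hj2 (not_lt.2 (hp j hlt).le)
    · rw [heq] at hj2
      exact hj2
  · intro a b hab
    exact hH_of_rank had hu' hw' hN' hpres a b hab
  · have hsub : (IN fun i => h' i + g' i) ⊆ Jset u w := by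
      intro c hc
      exact (Setup_mem c).2 (key c hc).1
    have h1 : ∏ c ∈ IN (fun i => h' i + g' i),
        (nuF (fun i => h' i + g' i) c + dF u w c).choose (dF u w c) =
        ∏ c ∈ IN (fun i => h' i + g' i),
        (nuF (fun i => h i + g i) c + dF u w c).choose (dF u w c) := by
      refine Finset.prod_congr rfl fun c hc => ?_
      rw [hnu c (key c hc).1.1 (key c hc).1.2]
    rw [h1]
    refine Finset.prod_subset hsub fun k hk hkI => ?_
    have hEX : EX u k ∧ EX w⁻¹ k := (Setup_mem k).1 hk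
    have h2 : nuF (fun i => h' i + g' i) k = 0 := by
      by_contra hne
      exact hkI (Finset.mem_filter.2 ⟨Finset.mem_univ _, Nat.pos_of_ne_zero hne⟩)
    rw [hnu k hEX.1 hEX.2] at h2
    rw [h2, zero_add, Nat.choose_self]

end CE
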