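import Pool.Agent.H43.CE.K.W0a
import Pool.Agent.H43.CM.M.Inv3

/-!
# CE, job K-W0 : `t(w0 v⁻¹ w0) = t(v)` on the level of the boundary ideals

`tau M = P Mᵀ P`, `P = permMat r`, `r = Fin.revPerm`, i.e. `(tau M) i j = M (r j) (r i)`; `tau (M * N) = tau N * tau M`, `tau` of an upper triangular invertible matrix is upper triangular invertible, `tau (permMat v) = permMat (rc v⁻¹)`.
For `z : Low n → R` let `zt e = z ⟨(r e.1.2, r e.1.1), _⟩`; `tau (lowMat z) = lowMat zt`.  So `z ∈ SS 1 v → zt ∈ SS 1 (rc v⁻¹)`, and since `zt` of `zt` is `z` (`rc` is an involution commuting with inversion) it is an equivalence.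
`exists_tauE`: coordinate change by `CMT.exists_coordChange` with `G = H = (z ↦ zt)`.
`finrank_bd_tau`: the same proof as `CMT.finrank_bd_inv` (CM/M/Inv3.lean) with `rc v⁻¹` instead of `v⁻¹` (`cov_inv`, `cov_rc`, `rc_rc`, `rc_inv`).
`finrank_bd_rc`: `rc v = rc (v⁻¹)⁻¹`, `finrank_bd_tau` for `v⁻¹` and `CMT.finrank_bd_inv`.
-/

open MvPolynomial

noncomputable section

namespace CE

open CMT

variable {n : ℕ}

/-- the reflection of `z` at the antidiagonal -/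
def W0_zt {R : Type*} (z : Low n → R) : Low n → R :=
  fun e => z ⟨(Fin.rev e.1.2, Fin.rev e.1.1), Fin.rev_lt_rev.2 e.2⟩

/-- the reflection of a matrix at the antidiagonal -/
def W0_tau {R : Type*} (M : Matrix (Fin n) (Fin n) R) : Matrix (Fin n) (Fin n) R :=
  fun i j => M (Fin.rev j) (Fin.rev i)

theorem W0_zt_zt {R : Type*} (z : Low n → R) : W0_zt (W0_zt z) = z := by
  funext e
  unfold W0_zt
  congr 1
  apply Subtype.ext
  simp

theorem W0_tau_mul {R : Type*} [CommRing R] (M N : Matrix (Fin n) (Fin n) R) :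
    W0_tau (M * N) = W0_tau N * W0_tau M := by
  ext i j
  simp only [W0_tau, Matrix.mul_apply]
  rw [← Equiv.sum_comp Fin.revPerm]
  apply Finset.sum_congr rfl
  intro k _
  rw [Fin.revPerm_apply, mul_comm]

theorem W0_tau_upper {b : Matrix (Fin n) (Fin n) ℂ} (hb : IsUpper b) : IsUpper (W0_tau b) := by
  refine ⟨fun i j h => ?_, fun i => hb.2 _⟩
  exact hb.1 _ _ (Fin.rev_lt_rev.2 h)

theorem W0_tau_perm (v : Equiv.Perm (Fin n)) :
    W0_tau (permMat ℂ v) = permMat ℂ (rc v⁻¹) := by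
  ext i j
  simp only [W0_tau, permMat]
  rw [rc_apply]
  have h : (Fin.rev j = v (Fin.rev i)) ↔ (i = Fin.rev (v⁻¹ (Fin.rev j))) := by
    constructor
    · intro h
      rw [h, Equiv.Perm.coe_inv, Equiv.symm_apply_apply, Fin.rev_rev]
    · intro h
      rw [h, Fin.rev_rev, Equiv.Perm.coe_inv, Equiv.apply_symm_apply]
  by_cases h1 : Fin.rev j = v (Fin.rev i)
  · rw [if_pos h1, if_pos (h.1 h1)]
  · rw [if_neg h1, if_neg (fun h2 => h1 (h.2 h2))]

theorem W0_tau_low {R : Type*} [CommRing R] (z : Low n → R) :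
    W0_tau (lowMat z) = lowMat (W0_zt z) := by
  apply (eq_lowMat ?_ ?_).trans
  · congr 1
    funext e
    change lowMat z (Fin.rev e.1.2) (Fin.rev e.1.1) = _
    rw [lowMat_lt z (Fin.rev_lt_rev.2 e.2)]
    rfl
  · intro i j h
    exact lowMat_gt z (Fin.rev_lt_rev.2 h)
  · intro i
    exact lowMat_diag z _

theorem W0_mem {v : Equiv.Perm (Fin n)} {z : Low n → ℂ} (h : z ∈ SS 1 v) :
    W0_zt z ∈ SS 1 (rc v⁻¹) := by
  obtain ⟨b, b', hb, hb', he⟩ := h
  rw [permMat_one, Matrix.one_mul] at he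
  refine ⟨W0_tau b', W0_tau b, W0_tau_upper hb', W0_tau_upper hb, ?_⟩
  rw [permMat_one, Matrix.one_mul, ← W0_tau_low, he, W0_tau_mul, W0_tau_mul, W0_tau_perm,
    Matrix.mul_assoc]

theorem exists_tauE : ∃ c : CoordChange (Low n) (Low n),
    ∀ (w : Equiv.Perm (Fin n)) (y : Low n → ℂ), y ∈ SS 1 (rc w⁻¹) ↔ c.g y ∈ SS 1 w := by
  obtain ⟨c, hc, -⟩ := exists_coordChange (ι := Low n) (ι' := Low n) (fun _ _ => W0_zt)
    (fun _ _ => W0_zt) (fun _ _ _ _ _ _ _ => rfl) (fun _ _ _ _ _ _ _ => rfl)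
    (fun _ _ z => W0_zt_zt z) (fun _ _ z => W0_zt_zt z) (fun _ _ _ => rfl)
  refine ⟨c, fun w y => ?_⟩
  rw [hc]
  constructor
  · intro h
    have h1 := W0_mem h
    rwa [rc_inv, rc_rc, inv_inv] at h1
  · intro h
    have h1 := W0_mem h
    rwa [W0_zt_zt] at h1

theorem finrank_bd_tau (v : Equiv.Perm (Fin n)) :
    Module.finrank ℂ (bd 1 (rc v⁻¹) ⧸
      (orig (SS 1 (rc v⁻¹)) • (⊤ : Submodule (CR (SS 1 (rc v⁻¹))) (bd 1 (rc v⁻¹))))) =
    Module.finrank ℂ (bd 1 v ⧸ (orig (SS 1 v) • (⊤ : Submodule (CR (SS 1 v)) (bd 1 v)))) := by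
  obtain ⟨c, hSS⟩ := exists_tauE (n := n)
  have hVI : ∀ (w : Equiv.Perm (Fin n)) (f : MvPolynomial (Low n) ℂ),
      f ∈ VI (SS 1 w) ↔ c.E f ∈ VI (SS 1 (rc w⁻¹)) := by
    intro w f
    rw [mem_vanishingIdeal_iff, mem_vanishingIdeal_iff]
    constructor
    · intro h1 y hy
      rw [c.aeval_E]
      exact h1 _ ((hSS w y).1 hy)
    · intro h1 z hz
      obtain ⟨y, rfl⟩ := c.g_surj z
      rw [← c.aeval_E]
      exact h1 _ ((hSS w y).2 hz)
  obtain ⟨e, he, ho⟩ := c.crEquiv (SS 1 v) (SS 1 (rc v⁻¹)) (hSS v)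
  have hn : ∀ a, a ∈ orig (SS 1 v) ↔ e a ∈ orig (SS 1 (rc v⁻¹)) := by
    intro a
    rw [← ho]
    constructor
    · intro h
      exact Ideal.mem_map_of_mem (e : CR (SS 1 v) →+* CR (SS 1 (rc v⁻¹))) h
    · intro h
      have h1 : e a ∈ (orig (SS 1 v)).map (e : CR (SS 1 v) →+* CR (SS 1 (rc v⁻¹))) ↔
          ∃ y ∈ orig (SS 1 v), e y = e a := Ideal.mem_map_of_equiv e (e a)
      obtain ⟨y, hy, hye⟩ := h1.1 h
      rwa [← e.injective hye]
  have hbd : ∀ (u : Equiv.Perm (Fin n)) (f : MvPolynomial (Low n) ℂ),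
      Ideal.Quotient.mk (VI (SS 1 u)) f ∈ bd 1 u ↔ ∀ w, cov w u → f ∈ VI (SS 1 w) := by
    intro u f
    unfold bd
    rw [Submodule.mem_iInf]
    constructor
    · intro h w hw
      exact (mk_mem_Pid hw.1 f).1 (h ⟨w, hw⟩)
    · rintro h ⟨w, hw⟩
      exact (mk_mem_Pid hw.1 f).2 (h w hw)
  have hN : ∀ a, a ∈ bd 1 v ↔ e a ∈ bd 1 (rc v⁻¹) := by
    intro a
    obtain ⟨f, rfl⟩ := Ideal.Quotient.mk_surjective a
    rw [he, hbd, hbd]
    constructor
    · intro h w hw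
      have e1 : ∀ x : Equiv.Perm (Fin n), rc (rc x⁻¹)⁻¹ = x := by
        intro x
        rw [rc_inv, rc_rc, inv_inv]
      have h1 := cov_rc (cov_inv hw)
      rw [e1] at h1
      have h2 := (hVI _ f).1 (h _ h1)
      rwa [e1] at h2
    · intro h w hw
      exact (hVI w f).2 (h _ (cov_rc (cov_inv hw)))
  exact (finrank_transport e (bd 1 v) (orig (SS 1 v)) (bd 1 (rc v⁻¹)) (orig (SS 1 (rc v⁻¹)))
    hN hn).symm

theorem finrank_bd_rc (v : Equiv.Perm (Fin n)) :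
    Module.finrank ℂ (bd 1 (rc v) ⧸
      (orig (SS 1 (rc v)) • (⊤ : Submodule (CR (SS 1 (rc v))) (bd 1 (rc v))))) =
    Module.finrank ℂ (bd 1 v ⧸ (orig (SS 1 v) • (⊤ : Submodule (CR (SS 1 v)) (bd 1 v)))) := by
  have h1 := finrank_bd_tau v⁻¹
  rw [inv_inv] at h1
  exact h1.trans (finrank_bd_inv v)

end CE
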