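import Pool.Agent.H43.CE.Defs

/-!
# CE, job K-W0a : conjugation with `w0` and Bruhat order

`r = Fin.revPerm`.  `rk_rev`: for `i, k ≤ n`: `rk (r * v * r) i k + i = rk v (n - i) (n - k) + k`.
Proof: `rk (r v r) i k = #{j < k : i ≤ r (v (r j))} = #{j' ≥ n - k : v j' < n - i}` (`j' = r j`, `(r m).val = n - 1 - m`).  `#{j' : v j' < n - i} = n - i`, `#{j' < n - k : v j' < n - i} = (n - k) - rk v (n-i) (n-k)`.
`ble_rev_conj`: compare `rk` for `i, k ≤ n` by `rk_rev`; `n < k`: `CMT.rk_of_ge`, `CMT.rk_top`; `i ≥ n`: both are 0 (`CMT.Inv2_rk_big`).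
`len_rev_conj`: bijection of inversions `(a, b) ↦ (r b, r a)`.
`cov_rev_conj`: from both.  `rev_conj_conj`: `r * (r * v * r) * r = v`.
-/

open MvPolynomial

noncomputable section

namespace CE

open CMT

variable {n : ℕ}

/-- `w0 v w0` -/
def rc (v : Equiv.Perm (Fin n)) : Equiv.Perm (Fin n) := Fin.revPerm * v * Fin.revPerm

theorem rc_apply (v : Equiv.Perm (Fin n)) (i : Fin n) : rc v i = Fin.rev (v (Fin.rev i)) := by
  unfold rc
  rw [Equiv.Perm.mul_apply, Equiv.Perm.mul_apply, Fin.revPerm_apply, Fin.revPerm_apply]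

theorem W0a_rr : (Fin.revPerm * Fin.revPerm : Equiv.Perm (Fin n)) = 1 := by
  ext i
  simp

theorem rc_rc (v : Equiv.Perm (Fin n)) : rc (rc v) = v := by
  ext i
  rw [rc_apply, rc_apply, Fin.rev_rev, Fin.rev_rev]

theorem rc_inv (v : Equiv.Perm (Fin n)) : rc v⁻¹ = (rc v)⁻¹ := by
  rw [eq_inv_iff_mul_eq_one]
  ext i
  rw [Equiv.Perm.mul_apply, rc_apply, rc_apply, Fin.rev_rev]
  simp

theorem rk_rev (v : Equiv.Perm (Fin n)) (i k : ℕ) (hi : i ≤ n) (hk : k ≤ n) :
    rk (rc v) i k + i = rk v (n - i) (n - k) + k := by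
  classical
  have h1 : rk (rc v) i k =
      (Finset.univ.filter fun a : Fin n => (v a).val < n - i ∧ n - k ≤ a.val).card := by
    unfold rk
    rw [← Inv2_card_perm (Fin.revPerm) (fun j : Fin n => j.val < k ∧ i ≤ (rc v j).val)]
    congr 1
    ext a
    simp only [Finset.mem_filter, Finset.mem_univ, true_and, Fin.revPerm_apply, rc_apply,
      Fin.rev_rev, Fin.val_rev]
    have ha := a.isLt
    have hv := (v a).isLt
    omega
  have h2 : (Finset.univ.filter fun a : Fin n => (v a).val < n - i).card = n - i := by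
    rw [Inv2_card_perm v (fun j : Fin n => j.val < n - i)]
    exact Inv2_card_lt _ (Nat.sub_le _ _)
  have h3 : (Finset.univ.filter fun a : Fin n => a.val < n - k ∧ (v a).val < n - i).card +
      (Finset.univ.filter fun a : Fin n => (v a).val < n - i ∧ n - k ≤ a.val).card = n - i := by
    conv_rhs => rw [← h2]
    rw [← Finset.card_filter_add_card_filter_not
      (s := Finset.univ.filter fun a : Fin n => (v a).val < n - i)
      (fun a : Fin n => a.val < n - k),
      Finset.filter_filter, Finset.filter_filter]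
    congr 2
    · ext a
      simp [and_comm]
    · ext a
      simp
  have h4 : (Finset.univ.filter fun a : Fin n => a.val < n - k ∧ (v a).val < n - i).card +
      rk v (n - i) (n - k) = n - k := by
    conv_rhs => rw [← Inv2_card_lt (n := n) (n - k) (Nat.sub_le _ _)]
    unfold rk
    rw [← Finset.card_filter_add_card_filter_not
      (s := Finset.univ.filter fun a : Fin n => a.val < n - k)
      (fun a : Fin n => (v a).val < n - i),
      Finset.filter_filter, Finset.filter_filter]
    congr 2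
    ext a; simp
  omega

theorem ble_rc {v w : Equiv.Perm (Fin n)} (h : ble w v) : ble (rc w) (rc v) := by
  intro i k
  by_cases hi : n ≤ i
  · rw [Inv2_rk_big _ _ _ hi]
    exact Nat.zero_le _
  · by_cases hk : n ≤ k
    · rw [rk_of_ge _ _ _ hk, rk_of_ge _ _ _ hk, rk_top (rc w) (rc v)]
    · have h1 := rk_rev v i k (by omega) (by omega)
      have h2 := rk_rev w i k (by omega) (by omega)
      have h3 := h (n - i) (n - k)
      omega

theorem len_rc (v : Equiv.Perm (Fin n)) : len (rc v) = len v := by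
  unfold len
  refine Finset.card_bij (fun p _ => (Fin.rev p.2, Fin.rev p.1)) ?_ ?_ ?_
  · rintro ⟨a, b⟩ h
    simp only [Finset.mem_filter, Finset.mem_univ, true_and, rc_apply, Fin.rev_lt_rev] at h ⊢
    exact h
  · rintro ⟨a, b⟩ _ ⟨c, d⟩ _ h
    simp only [Prod.mk.injEq, Fin.rev_inj] at h
    exact Prod.ext h.2 h.1
  · rintro ⟨a, b⟩ h
    simp only [Finset.mem_filter, Finset.mem_univ, true_and] at h
    refine ⟨(Fin.rev b, Fin.rev a), ?_, by simp⟩
    simp only [Finset.mem_filter, Finset.mem_univ, true_and, rc_apply, Fin.rev_lt_rev,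
      Fin.rev_rev]
    exact h

theorem cov_rc {v w : Equiv.Perm (Fin n)} (h : cov w v) : cov (rc w) (rc v) :=
  ⟨ble_rc h.1, by rw [len_rc, len_rc]; exact h.2⟩

end CE
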